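import Pool.Agent.Q251.SHA.Plane
import Pool.Agent.TH469.SX.Fifteen

/-!
# 15 points of one multiplicity, and 27 points in the degrees divisible by three
-/

set_option autoImplicit false

namespace Pool.Agent.Q251.SHA

open Finset Pool.Agent.TH176.Nag Pool.Agent.TH603.Sur Pool.Agent.TH603.Cut Pool.Agent.TH641.NW
  Pool.Agent.TH469.SX Pool.Agent.TH978.S13 Pool.Agent.H932R3

/-- no points of multiplicity `h` -/
theorem drop_zero {n n' m h : ℕ} (e : n = n') {S : Set (ℤ × ℤ)}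
    (hd : Emp (Sum.elim (fun _ : Fin n => m) (fun _ : Fin 0 => h)) S ∨
      Sur (Sum.elim (fun _ : Fin n => m) (fun _ : Fin 0 => h)) S) :
    Emp (fun _ : Fin n' => m) S ∨ Sur (fun _ : Fin n' => m) S := by
  have hw : ∀ i, (Sum.elim (fun _ : Fin n => m) (fun _ : Fin 0 => h)) i =
      (fun _ : Fin n' => m) (((Equiv.sumEmpty (Fin n) (Fin 0)).trans (finCongr e)) i) := by
    rintro (i | i)
    · rfl
    · exact i.elim0
  rcases hd with hd | hd
  · exact Or.inl (Emp_equiv ((Equiv.sumEmpty (Fin n) (Fin 0)).trans (finCongr e)) hw hd)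
  · exact Or.inr (Sur_equiv ((Equiv.sumEmpty (Fin n) (Fin 0)).trans (finCongr e)) hw hd)

theorem sN3 : sN 3 = √(15 : ℝ) := by unfold sN; norm_num

theorem sN1 : sN 1 = √(3 : ℝ) := by unfold sN; norm_num

/-- 15 points in the degree `3 h` -/
theorem dich15 {h m : ℕ} (ht : 5 * (3 * h : ℝ) < 5 * (√15 * m) + (33 - 8 * √15)) :
    Emp (fun _ : Fin 15 => m) (TZ (3 * h)) ∨ Sur (fun _ : Fin 15 => m) (TZ (3 * h)) := by
  refine drop_zero (n := (2 * (0 + 1) + 1) * (3 + 2)) (h := h) (by norm_num) ?_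
  refine dich_odd (M := 3) (j := 0) (k := 0) (by norm_num) (by norm_num) ?_
  rw [sN3]
  have h2 : √(15 : ℝ) * √15 = 15 := Real.mul_self_sqrt (by norm_num)
  have h0 : (0 : ℝ) < √15 := Real.sqrt_pos.2 (by norm_num)
  have e1 : (((3 : ℕ) : ℝ)) * (((3 : ℕ) : ℝ) + 1) / √15 = 4 / 5 * √15 := by
    rw [div_eq_iff h0.ne']
    push_cast
    linear_combination (-4 / 5 : ℝ) * h2
  rw [e1]
  push_cast
  have h3 : √15 * (5 * (3 * h : ℝ)) < √15 * (5 * (√15 * m) + (33 - 8 * √15)) :=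
    mul_lt_mul_of_pos_left ht h0
  have h4 : √15 * h - 5 * m < (11 / 5 : ℝ) * √15 - 8 := by nlinarith
  have h5 := mul_lt_mul_of_pos_left h4 (show (0 : ℝ) < √15 + 4 by linarith)
  nlinarith

/-- **15 points**: all degrees but those divisible by three with `√15 m + 0.4032.. ≤ d < √15 m + 0.4364..` -/
theorem expDim15 (m : ℕ) :
    ∃ F : MvPolynomial (Fin 15 × Fin 2) ℚ, F ≠ 0 ∧ ∀ {L : Type} [Field L] [CharZero L]
      (P : Fin 15 → Fin 2 → L), MvPolynomial.aeval (fun ij : Fin 15 × Fin 2 => P ij.1 ij.2) F ≠ 0 →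
      ∀ d : ℕ, (¬ 3 ∣ d ∨ 5 * (d : ℝ) < 5 * (√15 * m) + (33 - 8 * √15) ∨ √15 * (2 * m + 1) ≤ 2 * d + 3) →
        ExpDim L (fun _ => m) P d := by
  refine Pool.Agent.TH864.SX.expDim_of_or' fun d hd => ?_
  by_cases h3 : 3 ∣ d
  · rcases hd with hd | hd | hd
    · exact absurd h3 hd
    · obtain ⟨h, rfl⟩ := h3
      refine dich15 ?_
      push_cast at hd
      exact hd
    · exact dich_three (b := 5) slp15 K15_lt (dich5 m d (Or.inr (Or.inr hd)))
  · exact dich_three (b := 5) slp15 K15_lt (dich5 m d (Or.inl h3))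

/-- 27 points in the degree `3 h` -/
theorem dich27 {h m : ℕ} (ht : (3 * h : ℝ) < √27 * m + 1 ∨ √27 * (2 * m + 1) ≤ 2 * (3 * h : ℝ) + 3) :
    Emp (fun _ : Fin 27 => m) (TZ (3 * h)) ∨ Sur (fun _ : Fin 27 => m) (TZ (3 * h)) := by
  have h2 : √(3 : ℝ) * √3 = 3 := Real.mul_self_sqrt (by norm_num)
  have h0 : (0 : ℝ) < √3 := Real.sqrt_pos.2 (by norm_num)
  have e27 : √(27 : ℝ) = 3 * √3 := by
    rw [show (27 : ℝ) = (3 * √3) * (3 * √3) by linear_combination (-9 : ℝ) * h2]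
    exact Real.sqrt_mul_self (by linarith)
  rw [e27] at ht
  rcases ht with ht | ht
  · refine drop_zero (n := (2 * (3 + 1) + 1) * (1 + 2)) (h := h) (by norm_num) ?_
    refine dich_odd (M := 1) (j := 3) (k := 0) (by norm_num) (by norm_num) ?_
    rw [sN1]
    have e1 : (((1 : ℕ) : ℝ)) * (((1 : ℕ) : ℝ) + 1) / √3 = 2 / 3 * √3 := by
      rw [div_eq_iff h0.ne']
      push_cast
      linear_combination (-2 / 3 : ℝ) * h2
    rw [e1]
    push_cast
    have h3 : √3 * (3 * h : ℝ) < √3 * (3 * √3 * m + 1) := mul_lt_mul_of_pos_left ht h0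
    have h4 : √3 * h - 3 * m < (1 / 3 : ℝ) * √3 := by nlinarith
    have h5 := mul_lt_mul_of_pos_left h4 (show (0 : ℝ) < √3 + 2 by linarith)
    nlinarith
  · have h3 : √3 * (2 * m + 1) ≤ 2 * (h : ℝ) + 1 := by linarith
    have h4 : √3 * (2 * m + 1) * (√3 * (2 * m + 1)) ≤ (2 * (h : ℝ) + 1) * (2 * (h : ℝ) + 1) :=
      mul_self_le_mul_self (by positivity) h3
    have h5 : (1 + 2) * ((2 * m + 1) * (2 * m + 1)) ≤ 1 * ((2 * h + 1) * (2 * h + 1)) := by
      have h6 : (3 : ℝ) * ((2 * m + 1) * (2 * m + 1)) ≤ (2 * (h : ℝ) + 1) * (2 * (h : ℝ) + 1) := by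
        have e : √3 * (2 * (m : ℝ) + 1) * (√3 * (2 * m + 1)) = 3 * ((2 * m + 1) * (2 * m + 1)) := by
          linear_combination ((2 * (m : ℝ) + 1) * (2 * m + 1)) * h2
        rw [e] at h4
        exact h4
      have h7 : 3 * ((2 * m + 1) * (2 * m + 1)) ≤ (2 * h + 1) * (2 * h + 1) := by exact_mod_cast h6
      linarith
    have h6 := dich_anti2 (M := 1) (r := 9) (k := 0) (h := h) (m := m) (by norm_num) (by norm_num)
      (by norm_num) (Or.inr h5)
    have e3 : 0 + 9 * (1 + 2) = 27 := by norm_num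
    have hw : ∀ i, (fun i : Fin (0 + 9 * (1 + 2)) => if (i : ℕ) < 0 then h else m) i =
        (fun _ : Fin 27 => m) ((finCongr e3) i) := by
      intro i
      simp
    rcases h6 with h6 | h6
    · exact Or.inl (Emp_equiv (finCongr e3) hw h6)
    · exact Or.inr (Sur_equiv (finCongr e3) hw h6)

/-- **27 points** in the degrees divisible by three: all but those with `√27 m + 1 ≤ d < √27 m + 1.098..` -/
theorem expDim27 (m : ℕ) :
    ∃ F : MvPolynomial (Fin 27 × Fin 2) ℚ, F ≠ 0 ∧ ∀ {L : Type} [Field L] [CharZero L]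
      (P : Fin 27 → Fin 2 → L), MvPolynomial.aeval (fun ij : Fin 27 × Fin 2 => P ij.1 ij.2) F ≠ 0 →
      ∀ d : ℕ, (3 ∣ d ∧ ((d : ℝ) < √27 * m + 1 ∨ √27 * (2 * m + 1) ≤ 2 * d + 3)) →
        ExpDim L (fun _ => m) P d := by
  refine Pool.Agent.TH864.SX.expDim_of_or' fun d hd => ?_
  obtain ⟨⟨h, rfl⟩, hd⟩ := hd
  refine dich27 ?_
  push_cast at hd
  exact hd

end Pool.Agent.Q251.SHA
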