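import Pool.Agent.TH978.S13.Anti2

/-!
# A sector of width `M` with `M + 2` points, second type: the number of points on the lines
-/

set_option autoImplicit false

namespace Pool.Agent.Q251.SHA

open Finset

/-- the number `s = √(M (M + 2))` -/
structure SM (M : ℕ) (s : ℝ) : Prop where
  hM : 1 ≤ M
  sq : s * s = M * M + 2 * M
  lo : (M : ℝ) + 1 / 2 ≤ s
  hi : s < M + 1
  irr : Irrational s

variable {M : ℕ} {s : ℝ}

theorem SM.unit (h : SM M s) : (M + 1 - s) * (s + M + 1) = 1 := by
  have := h.sq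
  linear_combination -this

theorem SM.MR (h : SM M s) : (1 : ℝ) ≤ M := by exact_mod_cast h.hM

/-- the line with the number `c`: the position of its points -/
theorem line_pos (h : SM M s) {c b n : ℤ} (h1 : (s - M) * n < (c : ℝ) + b)
    (h2 : (c : ℝ) + b < s * ((n : ℝ) - b)) :
    (s + M) * ((n : ℝ) - (c + b)) < c + b ∧ (c : ℝ) + b < s * (c + ((n : ℝ) - (c + b))) := by
  have hlo := h.lo
  have hM := h.MR
  have hu := h.unit
  have hs := h.sq
  refine ⟨?_, by linarith⟩
  have h3 : (s - M) * ((n : ℝ) - (c + b)) < ((c : ℝ) + b) * (M + 1 - s) := by linarith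
  have h4 := mul_lt_mul_of_pos_right h3 (show (0 : ℝ) < s + M + 1 by linarith)
  have e1 : (s - M) * ((n : ℝ) - (c + b)) * (s + M + 1) = (s + M) * ((n : ℝ) - (c + b)) := by
    linear_combination ((n : ℝ) - (c + b)) * hs
  have e2 : ((c : ℝ) + b) * (M + 1 - s) * (s + M + 1) = c + b := by
    linear_combination ((c : ℝ) + b) * hu
  rw [e1, e2] at h4
  exact h4

/-- the number of points on the line with the number `c` -/
theorem cnt (h : SM M s) {c : ℤ} (hc : 1 ≤ c) (B : Finset ℤ)
    (hB : ∀ b ∈ B, 0 ≤ b ∧ ∃ n : ℤ, (s - M) * n < (c : ℝ) + b ∧ (c : ℝ) + b < s * ((n : ℝ) - b)) :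
    (B.card : ℝ) ≤ (s + M + 1) * c - M * (M + 1) / s := by
  have hlo := h.lo
  have hhi := h.hi
  have hM := h.MR
  have hs := h.sq
  have hs0 : 0 < s := by linarith
  have hM0 : (0 : ℝ) < M := by linarith
  have hcR : (1 : ℝ) ≤ c := by exact_mod_cast hc
  obtain ⟨b', hb'⟩ : ∃ b' : ℤ, b' = ⌊(c : ℝ) * s / M⌋ := ⟨_, rfl⟩
  obtain ⟨x, hx⟩ : ∃ x : ℝ, x = (c : ℝ) * s / M - b' := ⟨_, rfl⟩
  have hx0 : 0 ≤ x := by
    have := Int.floor_le ((c : ℝ) * s / M)
    rw [← hb'] at this
    linarith
  have hx1 : x < 1 := by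
    have := Int.lt_floor_add_one ((c : ℝ) * s / M)
    rw [← hb'] at this
    linarith
  have hX : (c : ℝ) * s = M * b' + M * x := by
    rw [hx]
    field_simp
    ring
  have hsb : s * b' = (M + 2) * c - s * x := by
    have h1 : (M : ℝ) * (s * b') = M * ((M + 2) * c - s * x) := by
      linear_combination (c : ℝ) * hs - s * hX
    exact mul_left_cancel₀ hM0.ne' h1
  have hb1 : 1 ≤ b' := by
    rw [hb', Int.le_floor]
    push_cast
    rw [le_div_iff₀ hM0]
    nlinarith
  obtain ⟨N, hN⟩ : ∃ N : ℤ, N = M * b' + (M + 1) * c := ⟨_, rfl⟩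
  have hNR : (N : ℝ) = M * b' + (M + 1) * c := by rw [hN]; push_cast; ring
  have hN1 : 2 * (M : ℤ) + 1 ≤ N := by
    have hMZ : (1 : ℤ) ≤ M := by exact_mod_cast h.hM
    rw [hN]
    nlinarith
  -- the positions from the end
  have key : ∀ b ∈ B, 0 ≤ b ∧ ∃ i : ℤ, 0 ≤ i ∧ (s - M) * x + s * i < (N : ℝ) - b ∧
      (N : ℝ) - b < s * x + (s + M) * i := by
    intro b hb
    obtain ⟨h0, n, h1, h2⟩ := hB b hb
    obtain ⟨h3, h4⟩ := line_pos h h1 h2
    refine ⟨h0, b' - (n - (c + b)), ?_, ?_, ?_⟩
    · have h5 : (M : ℝ) * ((n : ℝ) - (c + b)) < M * (b' + x) := by nlinarith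
      have h6 : ((n : ℝ) - (c + b)) < b' + x := lt_of_mul_lt_mul_left h5 hM0.le
      have h7 : (((n - (c + b) : ℤ)) : ℝ) < ((b' + 1 : ℤ) : ℝ) := by push_cast; linarith
      have h8 : n - (c + b) < b' + 1 := by exact_mod_cast h7
      omega
    · push_cast
      rw [hNR]
      linarith
    · push_cast
      rw [hNR]
      linarith
  have hgoal : (s + M + 1) * (c : ℝ) = N + M * x := by
    rw [hNR]
    linarith
  rw [hgoal]
  have hdiv : (M : ℝ) * (M + 1) / s * s = M * (M + 1) := by field_simp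
  obtain ⟨q, hq⟩ : ∃ q : ℝ, q = (M : ℝ) * (M + 1) / s := ⟨_, rfl⟩
  rw [← hq] at hdiv ⊢
  rcases le_or_gt ((M : ℝ) + 1) ((s - M) * x + s) with ha | ha
  · -- the first case
    have hsub : B ⊆ Finset.Icc 0 (N - (M + 2)) ∪ Finset.Ico (N - (⌈s * x⌉ - 1)) N := by
      intro b hb
      obtain ⟨h0, i, hi, h1, h2⟩ := key b hb
      rw [Finset.mem_union, Finset.mem_Icc, Finset.mem_Ico]
      rcases hi.lt_or_eq with hi | hi
      · left
        refine ⟨h0, ?_⟩
        have hiR : (1 : ℝ) ≤ i := by exact_mod_cast hi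
        have h3 : ((M + 1 : ℤ) : ℝ) < ((N - b : ℤ) : ℝ) := by
          push_cast
          nlinarith
        have h4 : ((M : ℤ) + 1) < N - b := by exact_mod_cast h3
        omega
      · right
        rw [← hi] at h1 h2
        simp only [Int.cast_zero, mul_zero, add_zero] at h1 h2
        have h3 : (0 : ℝ) ≤ (s - M) * x := mul_nonneg (by linarith) hx0
        have h4 : ((0 : ℤ) : ℝ) < ((N - b : ℤ) : ℝ) := by push_cast; linarith
        have h5 : 0 < N - b := by exact_mod_cast h4
        have h6 : N - b < ⌈s * x⌉ := by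
          rw [Int.lt_ceil]
          push_cast
          exact h2
        omega
    have hcard := (Finset.card_le_card hsub).trans (Finset.card_union_le _ _)
    rw [Int.card_Icc, Int.card_Ico] at hcard
    have hcardR : (B.card : ℝ) ≤ ((N - (M + 2) + 1 - 0).toNat : ℝ) + ((N - (N - (⌈s * x⌉ - 1))).toNat : ℝ) := by
      exact_mod_cast hcard
    have e1 : (((N - (M + 2) + 1 - 0).toNat : ℕ) : ℝ) = N - M - 1 := by
      have : (((N - (M + 2) + 1 - 0).toNat : ℕ) : ℤ) = N - M - 1 := by omega
      have h9 : ((((N - (M + 2) + 1 - 0).toNat : ℕ) : ℤ) : ℝ) = ((N - M - 1 : ℤ) : ℝ) := by rw [this]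
      push_cast at h9
      exact_mod_cast h9
    have e2 : (((N - (N - (⌈s * x⌉ - 1))).toNat : ℕ) : ℝ) ≤ s * x := by
      have hsx : 0 ≤ s * x := mul_nonneg hs0.le hx0
      have h9 : (((N - (N - (⌈s * x⌉ - 1))).toNat : ℕ) : ℤ) = max (⌈s * x⌉ - 1) 0 := by
        rw [Int.toNat_eq_max]
        congr 1
        ring
      have h10 : ((((N - (N - (⌈s * x⌉ - 1))).toNat : ℕ) : ℤ) : ℝ) = ((max (⌈s * x⌉ - 1) 0 : ℤ) : ℝ) := by
        rw [h9]
      rw [Int.cast_natCast] at h10
      rw [h10]
      push_cast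
      apply max_le _ hsx
      have := Int.ceil_lt_add_one (s * x)
      linarith
    -- the final inequality
    have hfin : (s - M) * x * s ≤ (M + 1) * (s - M) := by
      have h1 : (s - M) * x * s ≤ (s - M) * 1 * s := by
        apply mul_le_mul_of_nonneg_right _ hs0.le
        apply mul_le_mul_of_nonneg_left hx1.le
        linarith
      nlinarith
    have hfin2 : (s - M) * x ≤ (M + 1) - q := by
      have h1 : (s - M) * x * s ≤ ((M + 1) - q) * s := by
        have : ((M + 1 : ℝ) - q) * s = (M + 1) * (s - M) := by linear_combination -hdiv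
        rw [this]
        exact hfin
      exact le_of_mul_le_mul_right h1 hs0
    rw [e1] at hcardR
    linarith
  · -- the second case
    have hsx1 : s * x < 1 := by
      have h1 : (s - M) * (s * x) < (s - M) * 1 := by
        have h2 : s * ((s - M) * x) < s * (M + 1 - s) := mul_lt_mul_of_pos_left (by linarith) hs0
        nlinarith
      exact lt_of_mul_lt_mul_left h1 (by linarith)
    have key2 : ∀ b ∈ B, 0 ≤ b ∧ b ≤ N - (M + 1) ∧
        ((x + 1) * s < M + 1 → b ≠ N - (2 * M + 1)) := by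
      intro b hb
      obtain ⟨h0, i, hi, h1, h2⟩ := key b hb
      have h3 : (0 : ℝ) ≤ (s - M) * x := mul_nonneg (by linarith) hx0
      have hi1 : 1 ≤ i := by
        by_contra hcon
        have hi0 : i = 0 := by omega
        rw [hi0] at h1 h2
        simp only [Int.cast_zero, mul_zero, add_zero] at h1 h2
        have h4 : ((0 : ℤ) : ℝ) < ((N - b : ℤ) : ℝ) := by push_cast; linarith
        have h5 : ((N - b : ℤ) : ℝ) < ((1 : ℤ) : ℝ) := by push_cast; linarith
        have h6 : 0 < N - b := by exact_mod_cast h4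
        have h7 : N - b < 1 := by exact_mod_cast h5
        omega
      have hiR : (1 : ℝ) ≤ i := by exact_mod_cast hi1
      refine ⟨h0, ?_, ?_⟩
      · have h4 : ((M : ℤ) : ℝ) < ((N - b : ℤ) : ℝ) := by push_cast; nlinarith
        have h5 : (M : ℤ) < N - b := by exact_mod_cast h4
        omega
      · intro hx2 hbe
        have h4 : ((N : ℝ) - b) = 2 * M + 1 := by
          rw [hbe]; push_cast; ring
        rw [h4] at h1 h2
        rcases hi1.lt_or_eq with hi2 | hi2
        · have hiR2 : (2 : ℝ) ≤ i := by exact_mod_cast hi2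
          nlinarith
        · rw [← hi2] at h2
          push_cast at h2
          linarith
    rcases le_or_gt ((M : ℝ) + 1) ((x + 1) * s) with hb | hb
    · have hsub : B ⊆ Finset.Icc 0 (N - (M + 1)) := by
        intro b hb
        obtain ⟨h0, h1, -⟩ := key2 b hb
        rw [Finset.mem_Icc]
        exact ⟨h0, h1⟩
      have hcard := Finset.card_le_card hsub
      rw [Int.card_Icc] at hcard
      have hcardZ : (B.card : ℤ) ≤ N - M := by omega
      have hcardR : (B.card : ℝ) ≤ N - M := by exact_mod_cast hcardZ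
      have hq2 : q ≤ M * (x + 1) := by
        have h1 : q * s ≤ M * (x + 1) * s := by
          rw [hdiv, mul_assoc]
          exact mul_le_mul_of_nonneg_left hb hM0.le
        exact le_of_mul_le_mul_right h1 hs0
      linarith
    · have hsub : B ⊆ (Finset.Icc 0 (N - (M + 1))).erase (N - (2 * M + 1)) := by
        intro b hb'
        obtain ⟨h0, h1, h2⟩ := key2 b hb'
        rw [Finset.mem_erase, Finset.mem_Icc]
        exact ⟨h2 hb, h0, h1⟩
      have hcard := Finset.card_le_card hsub
      rw [Finset.card_erase_of_mem (by rw [Finset.mem_Icc]; omega), Int.card_Icc] at hcard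
      have hcardZ : (B.card : ℤ) ≤ N - M - 1 := by omega
      have hcardR : (B.card : ℝ) ≤ N - M - 1 := by exact_mod_cast hcardZ
      have hq2 : q ≤ M + 1 := by
        have h1 : q * s ≤ (M + 1) * s := by
          rw [hdiv]
          nlinarith
        exact le_of_mul_le_mul_right h1 hs0
      have hMx : 0 ≤ (M : ℝ) * x := mul_nonneg hM0.le hx0
      linarith

end Pool.Agent.Q251.SHA
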