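import Pool.Agent.Q251.SHA.Sector

/-!
# An odd number of blocks of `M + 2` points in the anticanonical degrees
-/

set_option autoImplicit false

namespace Pool.Agent.Q251.SHA

open Finset Pool.Agent.TH176.Nag Pool.Agent.TH603.Sur Pool.Agent.TH603.Cut Pool.Agent.TH641.NW
  Pool.Agent.TH469.SX Pool.Agent.TH978.S13

variable {M : ℕ} {s : ℝ}

/-- the number of the points of a sector -/
theorem sect_card {x : ℝ} (hx : Irrational x) (M h : ℕ) : ∃ T : Finset (ℤ × ℤ),
    (↑T : Set (ℤ × ℤ)) = Sc x (x + M) h ∧ T.card = M * (h + 1).choose 2 := by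
  classical
  refine ⟨(range h).biUnion fun j : ℕ => (Finset.Icc (⌊x * ((h : ℝ) - j)⌋ + 1)
    (⌊x * ((h : ℝ) - j)⌋ + ((M * (h - j) : ℕ) : ℤ))).image fun t => (t, (j : ℤ)), ?_, ?_⟩
  · ext p
    rw [Finset.mem_coe, Finset.mem_biUnion]
    constructor
    · rintro ⟨j, hj, hp⟩
      obtain ⟨t, ht, rfl⟩ := Finset.mem_image.1 hp
      rw [Finset.mem_range] at hj
      rw [Finset.mem_Icc] at ht
      have hs0 : (0 : ℝ) < (h : ℝ) - j := by
        have : (j : ℝ) < h := by exact_mod_cast hj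
        linarith
      have hfl : ((⌊x * ((h : ℝ) - j)⌋ : ℤ) : ℝ) < x * ((h : ℝ) - j) := by
        refine lt_of_le_of_ne (Int.floor_le _) fun he => hx ?_
        refine ⟨(⌊x * ((h : ℝ) - j)⌋ : ℚ) / ((h : ℚ) - j), ?_⟩
        push_cast
        rw [div_eq_iff hs0.ne']
        exact he
      have hfl2 := Int.lt_floor_add_one (x * ((h : ℝ) - j))
      refine ⟨by simp, ?_, ?_⟩
      · have h2 : ((⌊x * ((h : ℝ) - j)⌋ : ℤ) : ℝ) + 1 ≤ ((t : ℤ) : ℝ) := by exact_mod_cast ht.1
        simp only [Int.cast_natCast]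
        linarith
      · have h2 : ((t : ℤ) : ℝ) ≤ ((⌊x * ((h : ℝ) - j)⌋ : ℤ) : ℝ) + ((M * (h - j) : ℕ) : ℝ) := by
          exact_mod_cast ht.2
        rw [Nat.cast_mul, Nat.cast_sub hj.le] at h2
        simp only [Int.cast_natCast]
        linarith
    · rcases Nat.eq_zero_or_pos M with hM | hM
      · intro hp
        exfalso
        obtain ⟨g1, g2, g3⟩ := hp
        rw [hM] at g3
        simp only [Nat.cast_zero, add_zero] at g3
        linarith
      intro hp
      have hMR : (0 : ℝ) < M := by exact_mod_cast hM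
      have h0 := Sc_pos (by linarith) hp
      obtain ⟨g1, g2, g3⟩ := hp
      obtain ⟨t, j'⟩ := p
      simp only at g1 g2 g3 h0
      obtain ⟨j, rfl⟩ := Int.eq_ofNat_of_zero_le g1
      simp only [Int.cast_natCast] at g2 g3 h0
      have hj : j < h := by
        have : (j : ℝ) < h := by linarith
        exact_mod_cast this
      refine ⟨j, Finset.mem_range.2 hj, Finset.mem_image.2 ⟨t, ?_, rfl⟩⟩
      rw [Finset.mem_Icc]
      constructor
      · rw [Int.add_one_le_iff, Int.floor_lt]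
        exact g2
      · have h3 : t - ((M * (h - j) : ℕ) : ℤ) ≤ ⌊x * ((h : ℝ) - j)⌋ := by
          rw [Int.le_floor]
          push_cast [Nat.cast_sub hj.le]
          linarith
        omega
  · rw [Finset.card_biUnion]
    · have h1 : ∀ j ∈ range h, ((Finset.Icc (⌊x * ((h : ℝ) - j)⌋ + 1)
          (⌊x * ((h : ℝ) - j)⌋ + ((M * (h - j) : ℕ) : ℤ))).image fun t => (t, (j : ℤ))).card =
          M * (h - j) := by
        intro j _
        rw [Finset.card_image_of_injective _ (fun a b hab => by simpa using hab), Int.card_Icc]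
        omega
      rw [Finset.sum_congr rfl h1, ← Finset.mul_sum]
      congr 1
      have h2 : ∑ j ∈ range h, (h - j) = ∑ j ∈ range h, (j + 1) := by
        rw [← Finset.sum_range_reflect]
        refine Finset.sum_congr rfl fun j hj => ?_
        rw [Finset.mem_range] at hj
        omega
      rw [h2, Finset.sum_add_distrib, Finset.sum_const, Finset.card_range, smul_eq_mul, mul_one,
        ← Finset.sum_range_succ (fun i => i) h, Finset.sum_range_id, Nat.choose_two_right]
    · intro i _ j _ hij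
      rw [Function.onFun, Finset.disjoint_left]
      rintro p hp hp'
      obtain ⟨t, -, rfl⟩ := Finset.mem_image.1 hp
      obtain ⟨t', -, h2⟩ := Finset.mem_image.1 hp'
      rw [Prod.mk.injEq] at h2
      exact hij (by exact_mod_cast h2.2.symm)

/-- **the sector of the second type is independent** in the remaining cases -/
theorem Sur_secA (h : SM M s) {hh m : ℕ}
    (ht : (s + M + 1) * (s * hh - (M + 2) * m) < 1 + M * (M + 1) / s)
    (hc : (M + 2) * (m + 1).choose 2 ≤ M * (hh + 1).choose 2) :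
    Sur (fun _ : Fin (M + 2) => m) (Sc (s - M) s hh) := by
  have hx : Irrational (s - M) := h.irr.sub_natCast M
  obtain ⟨T, h1, h2⟩ := sect_card hx M hh
  have e : s - M + (M : ℝ) = s := by ring
  rw [e] at h1
  rw [← h1]
  refine Sur_of_Emp 0 ?_ ?_
  · rw [h2]
    unfold Pool.Agent.TH603.Sur.cond
    rw [Finset.sum_const, Finset.card_univ, Fintype.card_fin, smul_eq_mul]
    simpa using hc
  · rw [Emp_zero_iff, h1]
    exact Emp_secA h ht

/-- independence bounds the number of conditions -/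
theorem cond_le {ι : Type} [Fintype ι] {w : ι → ℕ} {x : ℝ} (hx : Irrational x) {M h : ℕ}
    (hS : Sur w (Sc x (x + M) h)) : Pool.Agent.TH603.Sur.cond w ≤ M * (h + 1).choose 2 := by
  obtain ⟨T, h1, h2⟩ := sect_card hx M h
  obtain ⟨T', h3, h4, -⟩ := hS
  rw [← h1, Finset.coe_subset] at h3
  rw [← h4, ← h2]
  exact Finset.card_le_card h3

/-- the block with `M + 4` points -/
theorem block4 {M h m : ℕ} (hM : 1 ≤ M) {x : ℝ} (hx : x = KM M - M) :
    Emp (fun _ : Fin (M + 4) => m) (Sc x (x + M) h ∪ {((0, (h : ℤ)) : ℤ × ℤ)}) ∨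
    Sur (fun _ : Fin (M + 4) => m) (Sc x (x + M) h) := by
  obtain ⟨hS, hK1, hK2⟩ := slpM hM
  have hxM : x + M = KM M := by rw [hx]; ring
  have hd : (((3 * h : ℕ) : ℝ)) / 3 = h := by push_cast; ring
  rcases dich (M := M) hS (Pool.Agent.TH469.SX.step3 hS) m (3 * h) with hd' | hd'
  · left
    refine (Pool.Agent.TH864.SX.Emp_blk hS hd').mono ?_
    rintro p (⟨g1, g2, g3⟩ | hp)
    · refine ⟨g1, ?_, ?_⟩
      · rw [hd, ← hx]; exact g2.le
      · rw [hd, ← hxM]; exact g3.le
    · rw [Set.mem_singleton_iff] at hp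
      rw [hp]
      refine ⟨by simp, ?_, ?_⟩
      · rw [hd]; simp
      · rw [hd]; simp
  · right
    refine (Sur_bo hS hd').mono ?_
    rintro p ⟨g1, g2, g3⟩
    rw [hd] at g2 g3
    exact ⟨g1, by rw [hx]; exact g2, by rw [hxM]; exact g3⟩

/-- the number `√(M (M + 2))` -/
noncomputable def sN (M : ℕ) : ℝ := √((M * M + 2 * M : ℕ) : ℝ)

theorem smN {M : ℕ} (hM : 1 ≤ M) : SM M (sN M) := by
  have hMR : (1 : ℝ) ≤ M := by exact_mod_cast hM
  have h2 : sN M * sN M = M * M + 2 * M := sqN M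
  refine ⟨hM, h2, ?_, ?_, ?_⟩
  · unfold sN
    rw [Real.le_sqrt' (by linarith)]
    push_cast
    nlinarith
  · unfold sN
    rw [Real.sqrt_lt' (by linarith)]
    push_cast
    nlinarith
  · have h4 : ¬ IsSquare (M * M + 2 * M : ℕ) := by
      rintro ⟨a, ha⟩
      have a1 : M < a := by
        by_contra hcon
        push Not at hcon
        have := Nat.mul_le_mul hcon hcon
        nlinarith
      have a2 : a < M + 1 := by
        by_contra hcon
        push Not at hcon
        have := Nat.mul_le_mul hcon hcon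
        nlinarith
      omega
    exact irrational_sqrt_natCast_iff.2 h4

theorem KM_two (M : ℕ) : KM (2 * M) - (2 * M : ℕ) = sN M - M := by
  have h2 : sN M * sN M = M * M + 2 * M := sqN M
  have h0 : 0 ≤ sN M := Real.sqrt_nonneg _
  have e : √((2 * M * (2 * M) + 4 * (2 * M) : ℕ) : ℝ) = 2 * sN M := by
    have e1 : ((2 * M * (2 * M) + 4 * (2 * M) : ℕ) : ℝ) = (2 * sN M) * (2 * sN M) := by
      push_cast
      linear_combination (-4) * h2
    rw [e1]
    exact Real.sqrt_mul_self (by linarith)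
  unfold KM
  rw [e]
  push_cast
  ring

/-- **an odd number of blocks**: emptiness or independence -/
theorem dich_odd {M j k h m : ℕ} (hM : 1 ≤ M) (hk : (2 * (j + 1) + 1) * M + k = 9)
    (ht : (sN M + M + 1) * (sN M * h - (M + 2) * m) < 1 + M * (M + 1) / sN M) :
    Emp (Sum.elim (fun _ : Fin ((2 * (j + 1) + 1) * (M + 2)) => m) (fun _ : Fin k => h)) (TZ (3 * h)) ∨
    Sur (Sum.elim (fun _ : Fin ((2 * (j + 1) + 1) * (M + 2)) => m) (fun _ : Fin k => h)) (TZ (3 * h)) := by
  have hS := smN hM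
  have hMR := hS.MR
  have hlo := hS.lo
  have hhi := hS.hi
  obtain ⟨x, hx⟩ : ∃ x : ℝ, x = sN M - M := ⟨_, rfl⟩
  have hirr : Irrational x := by
    rw [hx]
    exact hS.irr.sub_natCast M
  have hx0 : 0 < x := by rw [hx]; linarith
  have hx3 : x < 3 := by rw [hx]; linarith
  have hx2 : x = KM (2 * M) - (2 * M : ℕ) := by rw [KM_two]; exact hx
  have hM2 : 1 ≤ 2 * M := by omega
  have ha : 1 ≤ (2 * (j + 1) + 1) * M := Nat.mul_pos (by omega) hM
  have h9 : x + (((2 * (j + 1) + 1) * M + k : ℕ) : ℝ) = x + 9 := by rw [hk]; push_cast; ring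
  have eA : sN M = x + M := by rw [hx]; ring
  have e1 : x + (((j + 1) * (2 * M) : ℕ) : ℝ) = x + ((((j + 1) * (2 * M) : ℕ) : ℤ) : ℝ) := by
    push_cast; ring
  have e2 : x + (((2 * (j + 1) + 1) * M : ℕ) : ℝ) = x + M + ((((j + 1) * (2 * M) : ℕ) : ℤ) : ℝ) := by
    push_cast; ring
  have h0 : (0 : ℝ) < ((((j + 1) * (2 * M) : ℕ) : ℤ) : ℝ) := by
    have : 0 < (j + 1) * (2 * M) := by positivity
    exact_mod_cast this
  have e3 : (j + 1) * (2 * M + 4) + (M + 2) = (2 * (j + 1) + 1) * (M + 2) := by ring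
  rcases block4 (h := h) (m := m) hM2 hx2 with hB | hB
  · left
    have h1 := Emp_blocks hM2 hirr hB j
    have h2 : Emp (fun _ : Fin (M + 2) => m) (Sc x (x + M) h) := by
      have := Emp_secA hS ht
      rw [← hx, eA] at this
      exact this
    have h3 := Emp_shift (((j + 1) * (2 * M) : ℕ) : ℤ) h2
    rw [e1] at h1
    have h4 := Emp_add (x := x) (y := x + ((((j + 1) * (2 * M) : ℕ) : ℤ) : ℝ))
      (z := x + M + ((((j + 1) * (2 * M) : ℕ) : ℤ) : ℝ)) (by linarith) (by linarith)
      (hirr.add_intCast _) h1 h3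
    rw [← e2] at h4
    have h5 : Emp (fun _ : Fin ((2 * (j + 1) + 1) * (M + 2)) => m)
        (Sc x (x + (((2 * (j + 1) + 1) * M : ℕ) : ℝ)) h ∪ {((0, (h : ℤ)) : ℤ × ℤ)}) := by
      refine Emp_equiv (finSumFinEquiv.trans (finCongr e3)) ?_ h4
      rintro (i | i) <;> rfl
    have h6 := Emp_units ha hirr h5 k
    rw [h9] at h6
    exact Emp_plane9 hirr hx0 hx3 h6
  · right
    have hc := cond_le hirr hB
    have h1 := Sur_blocks hM2 hB j
    have hc2 : (M + 2) * (m + 1).choose 2 ≤ M * (h + 1).choose 2 := by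
      unfold Pool.Agent.TH603.Sur.cond at hc
      rw [Finset.sum_const, Finset.card_univ, Fintype.card_fin, smul_eq_mul] at hc
      nlinarith
    have h2 : Sur (fun _ : Fin (M + 2) => m) (Sc x (x + M) h) := by
      have := Sur_secA hS ht hc2
      rw [← hx, eA] at this
      exact this
    have h3 := Sur_shift (((j + 1) * (2 * M) : ℕ) : ℤ) h2
    rw [e1] at h1
    have h4 := Sur_add (x := x) (y := x + ((((j + 1) * (2 * M) : ℕ) : ℤ) : ℝ))
      (z := x + M + ((((j + 1) * (2 * M) : ℕ) : ℤ) : ℝ)) (by linarith) (by linarith) h1 h3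
    rw [← e2] at h4
    have h5 : Sur (fun _ : Fin ((2 * (j + 1) + 1) * (M + 2)) => m)
        (Sc x (x + (((2 * (j + 1) + 1) * M : ℕ) : ℝ)) h) := by
      refine Sur_equiv (finSumFinEquiv.trans (finCongr e3)) ?_ h4
      rintro (i | i) <;> rfl
    have h6 := Sur_units ha hirr h5 k
    rw [h9] at h6
    exact Sur_plane9 hirr hx0 hx3 h6

end Pool.Agent.Q251.SHA
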