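import Pool.Agent.Q251.SHA.Count

/-!
# A sector of width `M` with `M + 2` points, second type: emptiness
-/

set_option autoImplicit false

namespace Pool.Agent.Q251.SHA

open Finset Pool.Agent.TH176.Nag Pool.Agent.TH603.Sur Pool.Agent.TH603.Cut Pool.Agent.TH641.NW
  Pool.Agent.TH469.SX Pool.Agent.TH978.S13

variable {M : ℕ} {s : ℝ}

/-- emptiness by the lengths of the columns -/
theorem Emp_of_cols {ι : Type} [Fintype ι] {w : ι → ℕ} {S : Set (ℤ × ℤ)}
    (hS : ∀ (k : ℕ) (C : Finset ℤ), (∀ c ∈ C, ∃ B : Finset ℤ, k < B.card ∧ ∀ b ∈ B, ((c, b) : ℤ × ℤ) ∈ S) →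
      C.card ≤ ∑ i, (w i - k)) : Emp w S := by
  refine Emp_flat0 (S' := {p : ℤ × ℤ | 0 ≤ p.2 ∧ ∃ B : Finset ℤ, p.2 < B.card ∧
    ∀ b ∈ B, ((p.1, b) : ℤ × ℤ) ∈ S}) ?_ ?_
  · intro a B hB k hk
    exact ⟨by simp, B, by simp only; exact_mod_cast hk, hB⟩
  · refine Emp_of_rows (fun p hp => hp.1) fun k C hC => hS k C fun c hc => ?_
    obtain ⟨-, B, h1, h2⟩ := hC c hc
    simp only at h1 h2
    exact ⟨B, by exact_mod_cast h1, h2⟩

/-- **the sector of the second type is empty** if `s h - (M + 2) m` is small -/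
theorem Emp_secA (h : SM M s) {hh m : ℕ}
    (ht : (s + M + 1) * (s * hh - (M + 2) * m) < 1 + M * (M + 1) / s) :
    Emp (fun _ : Fin (M + 2) => m) (Sc (s - M) s hh) := by
  have hlo := h.lo
  have hhi := h.hi
  have hM := h.MR
  have hs := h.sq
  have hu := h.unit
  have hs0 : 0 < s := by linarith
  have hM0 : (0 : ℝ) < M := by linarith
  -- the first flattening
  refine Emp_flat (S' := {p : ℤ × ℤ | 0 ≤ p.2 ∧ ∃ n : ℤ, n ≤ hh ∧ (s - M) * n < p.1 ∧
    (p.1 : ℝ) < s * ((n : ℝ) - p.2)}) 1 0 1 0 (by norm_num) ?_ ?_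
  · rintro ⟨t, j⟩ T k ⟨g1, g2, -⟩ ⟨-, -, g3⟩ hk
    simp only at g1 g2 g3
    have e : ((1 * t + 0 * j, (k : ℤ)) : ℤ × ℤ) = (t, (k : ℤ)) := by simp
    simp only
    rw [e]
    refine ⟨by simp, (hh : ℤ) - j, by omega, ?_, ?_⟩
    · push_cast
      exact g2
    · push_cast at g3 ⊢
      simp only [zero_mul, sub_zero, one_mul] at g3
      have hkR : (k : ℝ) ≤ T := by exact_mod_cast hk
      have := mul_le_mul_of_nonneg_left hkR hs0.le
      linarith
  -- the shear
  refine Emp.comap (S' := {p : ℤ × ℤ | 0 ≤ p.2 ∧ ∃ n : ℤ, n ≤ hh ∧ (s - M) * n < (p.1 : ℝ) + p.2 ∧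
    (p.1 : ℝ) + p.2 < s * ((n : ℝ) - p.2)}) ?_ 1 (-1) 0 1 0 0 (by norm_num) ?_
  swap
  · rintro ⟨t, k⟩ ⟨g1, n, g2, g3, g4⟩
    simp only at g1 g3 g4
    refine ⟨by simp only; omega, n, g2, ?_, ?_⟩
    · push_cast
      linarith
    · push_cast
      linarith
  refine Emp_of_cols fun k C hC => ?_
  rw [Finset.sum_const, Finset.card_univ, Fintype.card_fin, smul_eq_mul]
  obtain ⟨α, hα⟩ : ∃ α : ℝ, α = s * hh - (M + 2) * m + k * (M + 1 - s) := ⟨_, rfl⟩
  have hk0 : (0 : ℝ) ≤ k := Nat.cast_nonneg k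
  have key : ∀ c ∈ C, α < c ∧ (c : ℝ) < α + (M + 2) * ((m : ℝ) - k) := by
    intro c hc
    obtain ⟨B, hB1, hB2⟩ := hC c hc
    -- a point at height at least `k`
    obtain ⟨b0, hb0, hb0k⟩ : ∃ b0 ∈ B, (k : ℤ) ≤ b0 := by
      by_contra hcon
      push Not at hcon
      have hsub : B ⊆ Finset.Ico 0 (k : ℤ) := by
        intro b hb
        rw [Finset.mem_Ico]
        exact ⟨(hB2 b hb).1, hcon b hb⟩
      have := Finset.card_le_card hsub
      rw [Int.card_Ico] at this
      omega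
    obtain ⟨g1, n, g2, g3, g4⟩ := hB2 b0 hb0
    simp only at g1 g3 g4
    have hb0R : (k : ℝ) ≤ b0 := by exact_mod_cast hb0k
    have g2R : (n : ℝ) ≤ hh := by exact_mod_cast g2
    have hcpos : 1 ≤ c := by
      have h1 : (s - M) * (s * b0 + (c + b0)) < s * ((c : ℝ) + b0) := by
        have h2 : s * b0 + (c + b0) < s * n := by linarith
        have h3 := mul_lt_mul_of_pos_left h2 (show (0 : ℝ) < s - M by linarith)
        have h4 := mul_lt_mul_of_pos_left g3 hs0
        nlinarith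
      have h5 : (M : ℝ) * ((M + 1 - s) * b0) < M * c := by nlinarith
      have h6 : (M + 1 - s) * (b0 : ℝ) < c := lt_of_mul_lt_mul_left h5 hM0.le
      have h7 : (0 : ℝ) ≤ (M + 1 - s) * (b0 : ℝ) := mul_nonneg (by linarith) (by linarith)
      have h8 : ((0 : ℤ) : ℝ) < c := by push_cast; linarith
      have h9 : (0 : ℤ) < c := by exact_mod_cast h8
      omega
    constructor
    · have h1 := cnt h hcpos B (fun b hb => by
        obtain ⟨q1, n, q2, q3, q4⟩ := hB2 b hb
        exact ⟨q1, n, q3, q4⟩)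
      have h2 : ((k : ℝ) + 1) ≤ B.card := by exact_mod_cast hB1
      have h3 : (k : ℝ) < (s + M + 1) * (c - (s * hh - (M + 2) * m)) := by linarith
      have h4 := mul_lt_mul_of_pos_left h3 (show (0 : ℝ) < M + 1 - s by linarith)
      have e : (M + 1 - s) * ((s + M + 1) * ((c : ℝ) - (s * hh - (M + 2) * m))) =
          c - (s * hh - (M + 2) * m) := by
        linear_combination ((c : ℝ) - (s * hh - (M + 2) * m)) * hu
      rw [e] at h4
      rw [hα]
      linarith
    · rw [hα]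
      have h1 : s * ((n : ℝ) - b0) ≤ s * ((hh : ℝ) - k) :=
        mul_le_mul_of_nonneg_left (by linarith) hs0.le
      linarith
  rcases le_or_gt m k with hmk | hmk
  · have hCe : C = ∅ := by
      rw [Finset.eq_empty_iff_forall_notMem]
      intro c hc
      obtain ⟨h1, h2⟩ := key c hc
      have h3 : (m : ℝ) ≤ k := by exact_mod_cast hmk
      have h4 : ((M : ℝ) + 2) * ((m : ℝ) - k) ≤ 0 :=
        mul_nonpos_of_nonneg_of_nonpos (by linarith) (by linarith)
      linarith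
    rw [hCe]
    simp
  · have hsub : C ⊆ Finset.Icc (⌊α⌋ + 1) (⌊α⌋ + ((M + 2) * ((m - k : ℕ) : ℤ))) := by
      intro c hc
      obtain ⟨h1, h2⟩ := key c hc
      rw [Finset.mem_Icc]
      constructor
      · rw [Int.add_one_le_iff, Int.floor_lt]
        exact h1
      · have h3 : c - ((M + 2) * ((m - k : ℕ) : ℤ)) ≤ ⌊α⌋ := by
          rw [Int.le_floor]
          push_cast [Nat.cast_sub hmk.le]
          linarith
        omega
    have hcard := Finset.card_le_card hsub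
    rw [Int.card_Icc] at hcard
    have h5 : (0 : ℤ) ≤ (M + 2) * ((m - k : ℕ) : ℤ) := by positivity
    have h6 : ((M + 2) * (m - k : ℕ) : ℕ) = ((M + 2) * ((m - k : ℕ) : ℤ)) := by push_cast; ring
    omega

end Pool.Agent.Q251.SHA
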